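import Pool.Agent.X55.Fam.LinCor

/-!
# Almost primes with prescribed digital functions in short intervals

Let `S` be a strongly `b`-additive function with values in a finite abelian group (for example the sum of the digits in
base `b`, or any vector of numbers of occurrences of nonzero digits, modulo some integers), which is not degenerate:
no nontrivial character of the group makes it a function of the residue of `n` modulo `b - 1`. We consider the integers `n` for
the integers `n` with `S n = g` in ARBITRARY short intervals `(M, M + H]`.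
* If `M + H ≤ H ^ B`, where `B` is arbitrary, the number of the `n` for which the value has a bounded number of prime
  factors, all greater than `H ^ δ`, has the expected order of magnitude.
* The number of the `n` for which it is prime is at most of this order.
* The number of the `n` for which it has no prime factor up to `y` is given by an asymptotic formula. In particular this applies between any two consecutive large odd squares.

The proof combines the fundamental lemma of the sieve, Mertens' theorem for polynomials and the exponential sums of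
digital functions (in the starting files), over the blocks of a short interval.
-/

set_option autoImplicit false

namespace Pool.Agent.Results.MP_5f6ee5_nt.DigitalFunctions

open Finset Polynomial

/-- `S` is strongly `b`-additive (`S (b n + d) = S n + S d` for the digits `d < b`), and no nontrivial character of the
group maps `S n`, for all digits `n`, to the powers `z ^ n` of a number `z` with `z ^ (b - 1) = 1` -/
def Digital {G : Type} [AddCommGroup G] (b : ℕ) (S : ℕ → G) : Prop :=
  (∀ n d : ℕ, d < b → S (b * n + d) = S n + S d) ∧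
  ∀ χ : AddChar G ℂ, χ ≠ 0 → ¬ (χ (S 1) ^ (b - 1) = 1 ∧ ∀ d < b, χ (S d) = χ (S 1) ^ d)

/-- `m ≠ 0` has at most `r` prime factors, counted with multiplicity, all of them greater than `x`. -/
def AlmostPrime (r : ℕ) (x : ℝ) (m : ℕ) : Prop :=
  m ≠ 0 ∧ m.primeFactorsList.length ≤ r ∧ ∀ q : ℕ, q.Prime → q ∣ m → x < q

/-- the number of the `n` in `(M, M + H]` with the property `R` for which `n` is an almost prime -/
noncomputable def almost (r : ℕ) (x : ℝ) (M H : ℕ) (R : ℕ → Prop) : ℕ :=
  Set.ncard {n : ℕ | M < n ∧ n ≤ M + H ∧ R n ∧ AlmostPrime r x n}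

/-- the number of the `n` in `(M, M + H]` with the property `R` for which `n` is a prime -/
noncomputable def primes (M H : ℕ) (R : ℕ → Prop) : ℕ :=
  Set.ncard {n : ℕ | M < n ∧ n ≤ M + H ∧ R n ∧ n.Prime}

/-- the number of the `n` in `(M, M + H]` with the property `R` for which `n` has no prime factor up to `y` -/
noncomputable def rough (y M H : ℕ) (R : ℕ → Prop) : ℕ :=
  Set.ncard {n : ℕ | M < n ∧ n ≤ M + H ∧ R n ∧ ∀ q : ℕ, q.Prime → q ≤ y → ¬ q ∣ n}

/-- the product over the primes `q ≤ y` of `1 - ν(q) / q`, where `ν(q)` is the number of the residues `a` modulo `q` for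
which this value is divisible by `q` -/
noncomputable def V (y : ℕ) : ℝ :=
  ∏ q ∈ (Icc 1 y).filter Nat.Prime, (1 - (Set.ncard {a : ℕ | a < q ∧ q ∣ a} : ℝ) / q)

/-- the bounds for the interval `(M, M + H]` and the property `R`, with the expected number `N` -/
def Bounds (P r : ℕ) (δ c C : ℝ) (B M H : ℕ) (R : ℕ → Prop) (N : ℝ) : Prop :=
  (M + H ≤ P ^ B → c * N / Real.log P ≤ almost r ((P : ℝ) ^ δ) M H R) ∧ (primes M H R : ℝ) ≤ C * N / Real.log P

/-- the asymptotic formula for the interval `(M, M + H]` and the property `R`, with the expected number `N` -/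
def Rough (η : ℝ) (M H y : ℕ) (R : ℕ → Prop) (N : ℝ) : Prop :=
  |(rough y M H R : ℝ) - N * V y| ≤ η * (N * V y)

/-- the polynomials -/
noncomputable def f : Fin 1 → ℤ[X] := ![C 1 * X + C 0]

/-- their values -/
def G : Fin 1 → ℤ → ℤ := ![fun n => 1 * n + 0]

/-- the values at natural numbers -/
def F : Fin 1 → ℕ → ℕ := ![fun n => n]

lemma f_eval (i : Fin 1) (n : ℤ) : (f i).eval n = G i n := by
  fin_cases i <;> simp [f, G]

lemma f_deg (i : Fin 1) : (f i).natDegree = (![1] : Fin 1 → ℕ) i := by
  fin_cases i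
  · show (C 1 * X + C 0 : ℤ[X]).natDegree = 1
    exact natDegree_linear (by norm_num)

lemma f_sys : Pool.Agent.X55.Fam.Sys 1 f := by
  refine Pool.Agent.X55.Fam.Sys.mk' ?_ ?_ ?_ 1 ?_ ?_
  · intro i
    fin_cases i
    · show Irreducible (C 1 * X + C 0 : ℤ[X])
      exact Pool.Agent.X55.Fam.lin_irr _ _ (by norm_num) (fun d h1 h2 => isUnit_of_dvd_one (by have := dvd_add (h1.mul_left (1)) (h2.mul_left (-1)); norm_num at this; exact this))
  · intro i
    rw [f_deg]
    fin_cases i <;> norm_num
  · intro i j hij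
    fin_cases i <;> fin_cases j <;>
      first
      | exact absurd rfl hij
      | exact Pool.Agent.X55.Fam.not_assoc 0 (by rw [f_eval, f_eval]; norm_num [G])
  · simp [Fin.sum_univ_succ, f_deg]
  · intro p hp hp2
    interval_cases p
    · exact absurd hp (by norm_num)
    · exact absurd hp (by norm_num)

lemma hF (i : Fin 1) (n : ℕ) : ((f i).eval (n : ℤ)).natAbs = F i n := by
  rw [f_eval]
  fin_cases i
  · show (1 * (n : ℤ) + 0).natAbs = n
    rw [show (1 * (n : ℤ) + 0) = ((n : ℕ) : ℤ) by push_cast; ring, Int.natAbs_natCast]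

lemma conv {P r : ℕ} {δ c C : ℝ} {B M H : ℕ} {R : ℕ → Prop} {N : ℝ}
    (h : Pool.Agent.X55.Fam.Both F P r δ c C B M H R N) : Bounds P r δ c C B M H R N := by
  unfold Pool.Agent.X55.Fam.Both at h
  simpa [Bounds, almost, primes, AlmostPrime, F, Pool.Agent.X55.Fam.Good, Fin.forall_fin_succ] using h

lemma convA {η : ℝ} {M H y : ℕ} {R : ℕ → Prop} {N : ℝ}
    (h : Pool.Agent.X55.Fam.Asym F η M H y R N) : Rough η M H y R N := by
  unfold Pool.Agent.X55.Fam.Asym at h
  simpa [Rough, rough, V, F, Fin.forall_fin_succ, Fin.exists_fin_succ] using h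

theorem result : ∀ (G : Type) [AddCommGroup G] [Fintype G] (b : ℕ) (S : ℕ → G), 2 ≤ b → Digital b S →
    (∀ B : ℕ, ∃ (r : ℕ) (δ c C : ℝ) (H₀ : ℕ), 0 < δ ∧ 0 < c ∧ 0 < C ∧
      ∀ H : ℕ, H₀ ≤ H → ∀ (M : ℕ) (g : G), Bounds H r δ c C B M H (fun n => S n = g) (H / Fintype.card G)) ∧
    (∀ η : ℝ, 0 < η → ∃ (δ : ℝ) (H₀ : ℕ), 0 < δ ∧
      ∀ H : ℕ, H₀ ≤ H → ∀ (M : ℕ) (g : G) (y : ℕ), 3 ≤ y → (y : ℝ) ≤ (H : ℝ) ^ δ →
      Rough η M H y (fun n => S n = g) (H / Fintype.card G)) := by
  intro G _ _ b S hb hS
  constructor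
  · intro B
    obtain ⟨r, δ, c, C, H₀, hδ, hc, hC, h⟩ := Pool.Agent.X55.Fam.dig_cor b hb S hS.1 hS.2 f_sys F hF B
    exact ⟨r, δ, c, C, H₀, hδ, hc, hC, fun H hH M g => conv (h H hH M g)⟩
  · intro η hη
    obtain ⟨δ, H₀, hδ, h⟩ := Pool.Agent.X55.Fam.dig_corA b hb S hS.1 hS.2 f_sys F hF η hη
    exact ⟨δ, H₀, hδ, fun H hH M g y hy hyH => convA (h H hH M g y hy hyH)⟩

end Pool.Agent.Results.MP_5f6ee5_nt.DigitalFunctions
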