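import Mathlib
import Pool.Agent.X58.IV.Prm

set_option autoImplicit false

/-!
# Progressions of primes between consecutive odd squares

`P K` is the set of the primes between `(2 K - 1)²` and `(2 K + 1)²`.

(1) For all `m` and `ρ > 0` there is `B` such that for ALL large `K` every subset of `P K` with at least
`ρ K / log K` elements contains `m` terms of an arithmetic progression with difference `≤ (log K) ^ B`.
(2) There is `c > 0` such that for every `m` there is `B` such that for all large `N`, for at least `c N` of the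
integers `N ≤ K < 2 N`, `P K` has at least `c K / log K` elements and contains `m` terms of an arithmetic
progression with difference `≤ (log K) ^ B`.
-/

namespace Pool.Agent.Results.MP_5f6ee5_nt.ProgressionsOfPrimes

open Finset Filter Topology Pool.Agent.X58.IV

/-- the primes between `(2 K - 1) ^ 2` and `(2 K + 1) ^ 2` -/
def P (K : ℕ) : Finset ℕ := (Ioo ((2 * K - 1) ^ 2) ((2 * K + 1) ^ 2)).filter Nat.Prime

/-- `U` contains `m` terms of an arithmetic progression with difference between `1` and `D` -/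
def Progression (m : ℕ) (D : ℝ) (U : Finset ℕ) : Prop :=
  ∃ a d : ℕ, 1 ≤ d ∧ (d : ℝ) ≤ D ∧ ∀ j < m, a + j * d ∈ U

lemma sq_sum {K : ℕ} (hK : 1 ≤ K) : (2 * K - 1) ^ 2 + 8 * K = (2 * K + 1) ^ 2 := by
  obtain ⟨j, rfl⟩ : ∃ j, K = j + 1 := ⟨K - 1, by omega⟩
  have : 2 * (j + 1) - 1 = 2 * j + 1 := by omega
  rw [this]
  ring

lemma P_sub {K : ℕ} (hK : 1 ≤ K) :
    P K ⊆ (Ioc ((2 * K - 1) ^ 2) ((2 * K - 1) ^ 2 + 8 * K)).filter Nat.Prime := by
  intro p hp
  rw [P, mem_filter, mem_Ioo] at hp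
  rw [mem_filter, mem_Ioc, sq_sum hK]
  exact ⟨⟨hp.1.1, hp.1.2.le⟩, hp.2⟩

theorem part1 (m : ℕ) (ρ : ℝ) (hρ : 0 < ρ) : ∃ B K₀ : ℕ, ∀ K : ℕ, K₀ ≤ K → ∀ U ⊆ P K,
    ρ * K / Real.log K ≤ U.card → Progression m (Real.log K ^ B) U := by
  obtain ⟨B, X₀, h⟩ := primes_ap m (ρ / 8) (by positivity)
  refine ⟨2 * B, max X₀ 8, fun K hK U hU hc => ?_⟩
  have hK8 : 8 ≤ K := (le_max_right _ _).trans hK
  have hK8' : (8 : ℝ) ≤ K := by exact_mod_cast hK8
  have hlK : 2 ≤ Real.log K := by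
    have h1 : Real.log 8 ≤ Real.log K := Real.log_le_log (by norm_num) hK8'
    have h2 : Real.log 8 = 3 * Real.log 2 := by
      rw [show (8 : ℝ) = 2 ^ 3 by norm_num, Real.log_pow]; norm_num
    have := Real.log_two_gt_d9
    linarith
  have hl8 : Real.log K ≤ Real.log (8 * K : ℕ) := by
    apply Real.log_le_log (by linarith)
    push_cast
    linarith
  have hl8' : Real.log (8 * K : ℕ) ≤ Real.log K ^ 2 := by
    push_cast
    rw [Real.log_mul (by norm_num) (by linarith)]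
    have h1 : Real.log 8 ≤ Real.log K := Real.log_le_log (by norm_num) hK8'
    nlinarith
  have h1 := h (8 * K) ((2 * K - 1) ^ 2) (by have := (le_max_left X₀ 8).trans hK; omega) (by
    obtain ⟨j, rfl⟩ : ∃ j, K = j + 1 := ⟨K - 1, by omega⟩
    have : 2 * (j + 1) - 1 = 2 * j + 1 := by omega
    rw [this]
    nlinarith) U (hU.trans (P_sub (by omega))) (by
      refine le_trans ?_ hc
      have e : ρ / 8 * ((8 * K : ℕ) : ℝ) = ρ * K := by push_cast; ring
      rw [e]
      exact div_le_div_of_nonneg_left (by positivity) (by linarith) hl8)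
  obtain ⟨a, d, h2, h3, h4⟩ := h1
  refine ⟨a, d, h2, h3.trans ?_, h4⟩
  rw [pow_mul]
  exact pow_le_pow_left₀ (by linarith) hl8' B

theorem upper : ∃ C : ℝ, 0 < C ∧ ∃ K₀ : ℕ, ∀ K : ℕ, K₀ ≤ K → ((P K).card : ℝ) ≤ C * K / Real.log K := by
  obtain ⟨C, hC, X₀, h⟩ := primes_up
  refine ⟨8 * C, by positivity, max X₀ 8, fun K hK => ?_⟩
  have hK8 : 8 ≤ K := (le_max_right _ _).trans hK
  have hK8' : (8 : ℝ) ≤ K := by exact_mod_cast hK8
  have hlK : 0 < Real.log K := Real.log_pos (by linarith)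
  have hl8 : Real.log K ≤ Real.log (8 * K : ℕ) := by
    apply Real.log_le_log (by linarith)
    push_cast
    linarith
  have h1 := h (8 * K) ((2 * K - 1) ^ 2) (by have := (le_max_left X₀ 8).trans hK; omega) (by
    obtain ⟨j, rfl⟩ : ∃ j, K = j + 1 := ⟨K - 1, by omega⟩
    have : 2 * (j + 1) - 1 = 2 * j + 1 := by omega
    rw [this]
    nlinarith)
  have h2 : ((P K).card : ℝ) ≤
      (((Ioc ((2 * K - 1) ^ 2) ((2 * K - 1) ^ 2 + 8 * K)).filter Nat.Prime).card : ℝ) := by
    exact_mod_cast card_le_card (P_sub (by omega))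
  refine h2.trans (h1.trans ?_)
  have e : C * ((8 * K : ℕ) : ℝ) = 8 * C * K := by push_cast; ring
  rw [e]
  exact div_le_div_of_nonneg_left (by positivity) hlK hl8

/-- the primes of `(4 N², 8 N²]` are in the intervals of the `N ≤ K < 2 N` -/
lemma cover {N : ℕ} (hN : 2 ≤ N) : (Ioc (4 * N ^ 2) (2 * (4 * N ^ 2))).filter Nat.Prime ⊆
    (Ico N (2 * N)).biUnion P := by
  intro p hp
  rw [mem_filter, mem_Ioc] at hp
  obtain ⟨⟨h1, h2⟩, hp⟩ := hp
  rw [mem_biUnion]
  obtain ⟨K, hK⟩ : ∃ K : ℕ, K = (Nat.sqrt p + 1) / 2 := ⟨_, rfl⟩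
  have hs1 := Nat.sqrt_le' p
  have hs2 := Nat.lt_succ_sqrt' p
  have hK1 : 2 * K ≤ Nat.sqrt p + 1 := by omega
  have hK2 : Nat.sqrt p + 1 < 2 * K + 2 := by omega
  have hKp : p < (2 * K + 1) ^ 2 := by
    have : Nat.succ (Nat.sqrt p) ≤ 2 * K + 1 := by omega
    exact lt_of_lt_of_le hs2 (Nat.pow_le_pow_left this 2)
  have hNK : N ≤ K := by
    by_contra hcon
    have : 2 * K + 1 ≤ 2 * N := by omega
    have := Nat.pow_le_pow_left this 2
    have e : (2 * N) ^ 2 = 4 * N ^ 2 := by ring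
    omega
  have hK0 : 1 ≤ K := by omega
  have hpK : (2 * K - 1) ^ 2 ≤ p := by
    have : 2 * K - 1 ≤ Nat.sqrt p := by omega
    exact (Nat.pow_le_pow_left this 2).trans hs1
  have hpK' : (2 * K - 1) ^ 2 ≠ p := by
    intro h
    rw [← h] at hp
    exact Nat.Prime.not_prime_pow le_rfl hp
  have hKN : K < 2 * N := by
    by_contra hcon
    have h3 : 4 * N - 1 ≤ 2 * K - 1 := by omega
    have h4 := (Nat.pow_le_pow_left h3 2).trans hpK
    obtain ⟨j, rfl⟩ : ∃ j, N = j + 1 := ⟨N - 1, by omega⟩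
    have h5 : 4 * (j + 1) - 1 = 4 * j + 3 := by omega
    rw [h5] at h4
    nlinarith
  refine ⟨K, mem_Ico.2 ⟨hNK, hKN⟩, ?_⟩
  rw [P, mem_filter, mem_Ioo]
  exact ⟨⟨lt_of_le_of_ne hpK hpK', hKp⟩, hp⟩

open Classical in
theorem part2 : ∃ c : ℝ, 0 < c ∧ ∃ N₀ : ℕ, ∀ N : ℕ, N₀ ≤ N →
    c * N ≤ (((Ico N (2 * N)).filter (fun K : ℕ => c * K / Real.log K ≤ ((P K).card : ℝ))).card : ℝ) := by
  obtain ⟨C, hC, K₀, hup⟩ := upper
  obtain ⟨x₀, hlow⟩ := primes_low
  obtain ⟨c, hc⟩ : ∃ c : ℝ, c = min (1 / 8) (1 / (8 * C)) := ⟨_, rfl⟩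
  have hc0 : 0 < c := by rw [hc]; positivity
  have hc1 : c ≤ 1 / 8 := by rw [hc]; exact min_le_left _ _
  have hc2 : c ≤ 1 / (8 * C) := by rw [hc]; exact min_le_right _ _
  refine ⟨c, hc0, max (max K₀ x₀) 3, fun N hN => ?_⟩
  have hNK : K₀ ≤ N := ((le_max_left _ _).trans (le_max_left _ _)).trans hN
  have hNx : x₀ ≤ N := ((le_max_right _ _).trans (le_max_left _ _)).trans hN
  have hN3 : 3 ≤ N := (le_max_right _ _).trans hN
  have hN3' : (3 : ℝ) ≤ N := by exact_mod_cast hN3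
  have hN0 : (0 : ℝ) < N := by linarith
  have hlN : 0 < Real.log N := Real.log_pos (by linarith)
  set G := (Ico N (2 * N)).filter (fun K : ℕ => c * K / Real.log K ≤ ((P K).card : ℝ)) with hG
  have h1 := hlow (4 * N ^ 2) (by nlinarith)
  have h2 : (((Ioc (4 * N ^ 2) (2 * (4 * N ^ 2))).filter Nat.Prime).card : ℝ) ≤
      ∑ K ∈ Ico N (2 * N), ((P K).card : ℝ) := by
    have := (card_le_card (cover (by omega : 2 ≤ N))).trans card_biUnion_le
    exact_mod_cast this
  have hKK : ∀ K ∈ Ico N (2 * N), (K : ℝ) / Real.log K ≤ 2 * N / Real.log N := by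
    intro K hK
    rw [mem_Ico] at hK
    have h3 : (N : ℝ) ≤ K := by exact_mod_cast hK.1
    have h4 : (K : ℝ) ≤ 2 * N := by exact_mod_cast hK.2.le
    have h5 : Real.log N ≤ Real.log K := Real.log_le_log hN0 h3
    gcongr
  have h3 : ∑ K ∈ Ico N (2 * N), ((P K).card : ℝ) ≤
      G.card * (C * (2 * N / Real.log N)) + N * (c * (2 * N / Real.log N)) := by
    rw [← sum_filter_add_sum_filter_not (Ico N (2 * N)) (fun K : ℕ => c * K / Real.log K ≤ ((P K).card : ℝ))]
    apply add_le_add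
    · calc ∑ K ∈ G, ((P K).card : ℝ) ≤ ∑ K ∈ G, C * (2 * N / Real.log N) := by
            apply sum_le_sum
            intro K hK
            have h4 := (mem_filter.1 hK).1
            have h5 := hup K (hNK.trans (mem_Ico.1 h4).1)
            refine h5.trans ?_
            rw [mul_div_assoc]
            exact mul_le_mul_of_nonneg_left (hKK K h4) hC.le
        _ = _ := by rw [sum_const, nsmul_eq_mul]
    · calc ∑ K ∈ (Ico N (2 * N)).filter (fun K : ℕ => ¬ c * K / Real.log K ≤ ((P K).card : ℝ)), ((P K).card : ℝ)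
          ≤ ∑ K ∈ (Ico N (2 * N)).filter (fun K : ℕ => ¬ c * K / Real.log K ≤ ((P K).card : ℝ)),
              c * (2 * N / Real.log N) := by
            apply sum_le_sum
            intro K hK
            obtain ⟨h4, h5⟩ := mem_filter.1 hK
            refine (not_le.1 h5).le.trans ?_
            rw [mul_div_assoc]
            exact mul_le_mul_of_nonneg_left (hKK K h4) hc0.le
        _ = (((Ico N (2 * N)).filter (fun K : ℕ => ¬ c * K / Real.log K ≤ ((P K).card : ℝ))).card : ℝ) *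
              (c * (2 * N / Real.log N)) := by rw [sum_const, nsmul_eq_mul]
        _ ≤ N * (c * (2 * N / Real.log N)) := by
            have h6 : ((Ico N (2 * N)).filter (fun K : ℕ => ¬ c * K / Real.log K ≤ ((P K).card : ℝ))).card ≤ N := by
              refine (card_filter_le _ _).trans ?_
              rw [Nat.card_Ico]
              omega
            have h7 : (((Ico N (2 * N)).filter (fun K : ℕ => ¬ c * K / Real.log K ≤ ((P K).card : ℝ))).card : ℝ) ≤
              N := by exact_mod_cast h6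
            gcongr
  have h4 : (N : ℝ) ^ 2 / (2 * Real.log N) ≤ ((4 * N ^ 2 : ℕ) : ℝ) / (2 * Real.log ((4 * N ^ 2 : ℕ) : ℝ)) := by
    have h5 : Real.log ((4 * N ^ 2 : ℕ) : ℝ) ≤ 4 * Real.log N := by
      push_cast
      rw [Real.log_mul (by norm_num) (by positivity), Real.log_pow]
      have h6 : Real.log 4 ≤ 2 * Real.log N := by
        calc Real.log 4 ≤ Real.log ((N : ℝ) ^ 2) := by
              apply Real.log_le_log (by norm_num)
              nlinarith
          _ = _ := by rw [Real.log_pow]; norm_num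
      push_cast
      linarith
    have h7 : 0 < Real.log ((4 * N ^ 2 : ℕ) : ℝ) := by
      apply Real.log_pos
      push_cast
      nlinarith
    rw [div_le_div_iff₀ (by positivity) (by positivity)]
    push_cast at h5 h7 ⊢
    nlinarith [sq_nonneg (N : ℝ), mul_pos hN0 hN0]
  have h5 : (N : ℝ) ^ 2 / (2 * Real.log N) ≤
      G.card * (C * (2 * N / Real.log N)) + N * (c * (2 * N / Real.log N)) :=
    h4.trans (h1.trans (h2.trans h3))
  -- multiply by log N / N
  have h6 : (N : ℝ) / 2 ≤ 2 * C * G.card + 2 * c * N := by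
    have e1 : (N : ℝ) ^ 2 / (2 * Real.log N) = (N / 2) * (N / Real.log N) := by
      field_simp
    have e2 : G.card * (C * (2 * N / Real.log N)) + N * (c * (2 * N / Real.log N)) =
        (2 * C * G.card + 2 * c * N) * (N / Real.log N) := by ring
    rw [e1, e2] at h5
    exact le_of_mul_le_mul_right h5 (by positivity)
  have h7 : (N : ℝ) / 4 ≤ 2 * C * G.card := by nlinarith
  have h8 : (N : ℝ) / (8 * C) ≤ G.card := by
    rw [div_le_iff₀ (by positivity)]
    linarith
  calc c * N ≤ 1 / (8 * C) * N := by gcongr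
    _ = (N : ℝ) / (8 * C) := by ring
    _ ≤ _ := h8

open Classical in
theorem result :
    (∀ (m : ℕ) (ρ : ℝ), 0 < ρ → ∃ B K₀ : ℕ, ∀ K : ℕ, K₀ ≤ K → ∀ U ⊆ P K,
      ρ * K / Real.log K ≤ U.card → Progression m (Real.log K ^ B) U) ∧
    ∃ c : ℝ, 0 < c ∧ ∀ m : ℕ, ∃ B N₀ : ℕ, ∀ N : ℕ, N₀ ≤ N →
      c * N ≤ (((Ico N (2 * N)).filter (fun K : ℕ => c * K / Real.log K ≤ ((P K).card : ℝ) ∧
        Progression m (Real.log K ^ B) (P K))).card : ℝ) := by
  refine ⟨part1, ?_⟩
  obtain ⟨c, hc, N₁, h⟩ := part2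
  refine ⟨c, hc, fun m => ?_⟩
  obtain ⟨B, K₀, hB⟩ := part1 m c hc
  refine ⟨B, max N₁ K₀, fun N hN => ?_⟩
  refine (h N ((le_max_left _ _).trans hN)).trans ?_
  apply Nat.cast_le.2
  apply card_le_card
  intro K hK
  rw [mem_filter] at hK ⊢
  refine ⟨hK.1, hK.2, hB K ?_ (P K) (Finset.Subset.refl _) hK.2⟩
  exact ((le_max_right _ _).trans hN).trans (mem_Ico.1 hK.1).1

end Pool.Agent.Results.MP_5f6ee5_nt.ProgressionsOfPrimes
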