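import Pool.Agent.X55.Fam.Adm

/-!
# Almost primes between consecutive odd squares with prescribed residues modulo a large prime

Let `P` be a large prime, `m ≥ 1` and `W = (2 m)!`. We consider the `2 m` numbers `(2 k - 1) ^ 2 + (n + j W)` and
`(2 k + 1) ^ 2 - (n + j W)`, `0 ≤ j < m`, of the interval between two consecutive odd squares. The number of the `n` in an
interval `(M, M + H]` for which the residue of `n` modulo `P` is restricted and for which all of them have a bounded
number of prime factors, all greater than `P ^ δ`, has the expected order of magnitude, and the number of those for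
which all of them are primes is at most of this order; the constants do not depend on `k`. The number of those for which
none of them has a prime factor up to `y` is given by an asymptotic formula, uniformly in `k`. This holds for the `n`
* of an ARBITRARY set `A` of residues modulo `P` whose Fourier coefficients are at most `Γ`, in ARBITRARY intervals of
  a length `H ≤ P` with `|A| H ≥ Γ P ^ (1 + ε)`;
* of a coset of a subgroup `S` of the residues, in the intervals of a length `H ≤ P` with `|S| H ≥ P ^ (3 / 2 + ε)`;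
* which are primitive roots of `P`, in the intervals of a length `H` with `P ^ (1 / 2 + ε) ≤ H ≤ P`;
* which are on the modular hyperbola `n m = u` modulo `P` with `n` and `m` in intervals of the lengths `H`, `K ≤ P` with
  `H K ≥ P ^ (3 / 2 + ε)`.

The proof combines a sieve which is uniform in the removed residue classes, incomplete sums, Weil's bound for the
Kloosterman sums and a Moebius formula for primitive roots.
-/

set_option autoImplicit false

namespace Pool.Agent.Results.MP_5f6ee5_nt.ResiduesModuloPrimes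

open Finset Pool.Agent.X55.Forms

/-- the coefficients of the `2 m` forms -/
def ca (m : ℕ) : Fin (m + m) → ℤ := Fin.append (fun _ => 1) (fun _ => -1)

/-- the constants of the `2 m` forms: the forms are `(2 k - 1) ^ 2 + (n + j W)` and `(2 k + 1) ^ 2 - (n + j W)` for
`j < m`, where `W = (2 m)!` -/
def cb (m k : ℕ) : Fin (m + m) → ℤ :=
  Fin.append (fun j => (2 * (k : ℤ) - 1) ^ 2 + j * ((2 * m).factorial : ℤ))
    (fun j => (2 * (k : ℤ) + 1) ^ 2 - j * ((2 * m).factorial : ℤ))

lemma ca_ne (m : ℕ) (i : Fin (m + m)) : ca m i ≠ 0 := by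
  unfold ca
  refine Fin.addCases (fun j => ?_) (fun j => ?_) i
  · rw [Fin.append_left]
    norm_num
  · rw [Fin.append_right]
    norm_num

lemma adm (m k : ℕ) : Admissible (ca m) (cb m k) := adm_sym m _ _ ⟨-(4 * (k : ℤ)), by ring⟩

theorem result : ∀ m : ℕ, 1 ≤ m →
    (∀ ε : ℝ, 0 < ε → ∀ B : ℕ, ∃ (r : ℕ) (δ c C : ℝ) (P₀ : ℕ), 0 < δ ∧ 0 < c ∧ 0 < C ∧
      ∀ P : ℕ, P₀ ≤ P → ∀ [Fact P.Prime] (k : ℕ), 1 ≤ k →
      Residues ε P (fun M H R X => M + H + m * (2 * m).factorial < 8 * k → Bounds (ca m) (cb m k) P r δ c C B M H R X)) ∧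
    -- the asymptotic formula
    (∀ ε η : ℝ, 0 < ε → 0 < η → ∃ (δ : ℝ) (P₀ : ℕ), 0 < δ ∧
      ∀ P : ℕ, P₀ ≤ P → ∀ [Fact P.Prime] (k : ℕ), 1 ≤ k → ∀ y : ℕ, 3 ≤ y → (y : ℝ) ≤ (P : ℝ) ^ δ →
      Sets ε P (fun M H R X => M + H + m * (2 * m).factorial < 8 * k → Rough (ca m) (cb m k) η y M H R X)) := by
  intro m hm
  refine ⟨fun ε hε B => ?_, fun ε η hε hη => ?_⟩
  · obtain ⟨r, δ, c, C, P₀, hδ, hc, hC, h⟩ := residues (m + m) (by omega) ε hε B
    refine ⟨r, δ, c, C, P₀, hδ, hc, hC, ?_⟩
    intro P hP _ k _
    exact (h P hP (ca m) (cb m k) (ca_ne m) (adm m k)).mono fun M H R X _ hQ _ => hQ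
  · obtain ⟨δ, P₀, hδ, h⟩ := residuesA (m + m) (by omega) ε η hε hη
    refine ⟨δ, P₀, hδ, ?_⟩
    intro P hP _ k _ y hy hyP
    exact (h P hP (ca m) (cb m k) (adm m k) y hy hyP).mono fun M H R X _ hQ _ => hQ

end Pool.Agent.Results.MP_5f6ee5_nt.ResiduesModuloPrimes
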